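import Mathlib

set_option autoImplicit false

namespace Pool.Agent.H.MP_86beeb_co.A

open Finset

/-- edge condition -/
def P (t s : ℝ) : Prop := (-1 ≤ s ∧ s < 1) ∨ t ≤ s

/-- number of thresholds passed -/
noncomputable def ty (t s : ℝ) : ℕ := if s < -1 then 0 else if s < 1 then 1 else if s < t then 2 else 3

theorem ty_mono {t s s' : ℝ} (h : s ≤ s') : ty t s ≤ ty t s' := by
  unfold ty
  split_ifs <;> first | omega | linarith

theorem ty_odd {t : ℝ} (ht : 1 < t) (s : ℝ) : P t s ↔ ty t s % 2 = 1 := by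
  unfold ty P
  split_ifs <;> simp <;> grind

theorem ty_le (t s : ℝ) : ty t s ≤ 3 := by
  unfold ty
  split_ifs <;> omega

theorem ty0 {t s : ℝ} (h : ty t s = 0) : s < -1 := by
  unfold ty at h
  split_ifs at h
  assumption

theorem ty2 {t s : ℝ} (h : ty t s = 2) : 1 ≤ s ∧ s < t := by
  unfold ty at h
  split_ifs at h <;> grind

/-- discrete pattern -/
def F (a b d : ℤ) : Prop := (-a ≤ d ∧ d < a) ∨ b ≤ d

theorem ham (a b : ℤ) (ha : 1 ≤ a) (hb : a + 2 ≤ b) (L j k : ℤ) (j0 : 0 ≤ j) (h : j < k)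
    (kL : k < L) : ∃ S ⊆ Icc (-a - L) b, (∀ i ∈ S, ¬ (F a b (i + j) ↔ F a b (i + k))) ∧
      3 ≤ #S ∧ (k - j ≠ 1 → 4 ≤ #S) := by
  by_cases e : k - j = 1
  · refine ⟨{-a - k, a - k, b - k}, ?_, ?_, ?_, fun h => absurd e h⟩
    · intro i
      simp only [mem_insert, mem_singleton, mem_Icc]
      omega
    · simp only [mem_insert, mem_singleton, F]
      omega
    · rw [card_insert_of_notMem (by simp; omega), card_insert_of_notMem (by simp; omega)]
      simp
  · have : #({-a - k, -a + 1 - k, b - 1 - j, b - 2 - j} : Finset ℤ) = 4 := by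
      rw [card_insert_of_notMem (by simp; omega), card_insert_of_notMem (by simp; omega),
        card_insert_of_notMem (by simp)]
      simp
    refine ⟨{-a - k, -a + 1 - k, b - 1 - j, b - 2 - j}, ?_, ?_, by omega, fun _ => by omega⟩
    · intro i
      simp only [mem_insert, mem_singleton, mem_Icc]
      omega
    · simp only [mem_insert, mem_singleton, F]
      omega

theorem run (t : ℝ) (ht : 1 < t) (a b : ℕ) (ha : 1 ≤ a) (hb : a + 2 ≤ b) (K L : ℕ)
    (hL : L = (3 * (a + b) + 7) * K + 1) (x y : ℤ → ℝ)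
    (h : ∀ i ∈ Icc (-a - L : ℤ) b, ∀ j : ℤ, 0 ≤ j → j < L → (P t (x i + y j) ↔ F a b (i + j))) :
    ∃ j0 ε : ℤ, (ε = 1 ∨ ε = -1) ∧ (∀ q : ℕ, q ≤ K → 0 ≤ j0 + ε * q ∧ j0 + ε * q < L) ∧
      ∀ q q' : ℕ, q ≤ q' → q' ≤ K → y (j0 + ε * q) ≤ y (j0 + ε * q') := by
  obtain ⟨u, u1, u2, u3⟩ : ∃ u : ℕ → ℤ, (∀ p < L, 0 ≤ u p ∧ u p < L) ∧
      (∀ p < L, ∀ q < L, u p = u q → p = q) ∧ ∀ p q, p ≤ q → q < L → y (u p) ≤ y (u q) := by
    let Y : Fin L → ℝ := fun j => y (j : ℕ)
    refine ⟨fun p => if h : p < L then (Tuple.sort Y ⟨p, h⟩ : ℕ) else 0, fun p hp => ?_,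
      fun p hp q hq e => ?_, fun p q e hq => ?_⟩
    · simp [hp]
    · simp only [hp, hq, dif_pos, Nat.cast_inj, Fin.val_inj, EmbeddingLike.apply_eq_iff_eq] at e
      simpa using e
    · simp only [hq, e.trans_lt hq, dif_pos]
      exact Tuple.monotone_sort Y (show (⟨p, _⟩ : Fin L) ≤ ⟨q, hq⟩ from e)
  let H : ℕ → ℕ := fun p => ∑ i ∈ Icc (-a - L : ℤ) b, ty t (x i + y (u p))
  have s1 : ∀ p, p + 1 < L → H p + 3 ≤ H (p + 1) ∧ (|u (p + 1) - u p| ≠ 1 → H p + 4 ≤ H (p + 1)) := by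
    intro p hp
    have a1 := u1 p (by omega)
    have a2 := u1 _ hp
    have a3 : u p ≠ u (p + 1) := fun e => by have := u2 p (by omega) _ hp e; omega
    obtain ⟨S, b1, b2, b3, b4⟩ : ∃ S ⊆ Icc (-a - L : ℤ) b,
        (∀ i ∈ S, ¬ (F a b (i + u p) ↔ F a b (i + u (p + 1)))) ∧ 3 ≤ #S ∧
          (|u (p + 1) - u p| ≠ 1 → 4 ≤ #S) := by
      rcases lt_or_gt_of_ne a3 with c | c
      · obtain ⟨S, b1, b2, b3, b4⟩ := ham a b (by omega) (by omega) L _ _ a1.1 c a2.2
        exact ⟨S, b1, b2, b3, fun e => b4 fun e' => e (by rw [e']; rfl)⟩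
      · obtain ⟨S, b1, b2, b3, b4⟩ := ham a b (by omega) (by omega) L _ _ a2.1 c a1.2
        exact ⟨S, b1, fun i hi e => b2 i hi e.symm, b3,
          fun e => b4 fun e' => e (by rw [abs_sub_comm, e']; rfl)⟩
    have : H p + #S ≤ H (p + 1) := by
      rw [card_eq_sum_ones, ← inter_eq_right.2 b1, ← sum_ite_mem, ← sum_add_distrib]
      refine sum_le_sum fun i hi => ?_
      have m : ty t (x i + y (u p)) ≤ ty t (x i + y (u (p + 1))) :=
        ty_mono (by linarith [u3 p (p + 1) (by omega) hp])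
      split_ifs with c
      · have := b2 i c
        rw [← h i hi _ a1.1 a1.2, ← h i hi _ a2.1 a2.2, ty_odd ht, ty_odd ht] at this
        omega
      · exact m
    exact ⟨by omega, fun e => by have := b4 e; omega⟩
  have s2 : ∀ p n, p + n < L → H p + 3 * n ≤ H (p + n) := fun p n => by
    induction n with
    | zero => simp
    | succ n ih =>
      intro e
      have := (s1 (p + n) e).1
      have := ih (by omega)
      rw [← add_assoc]
      omega
  obtain ⟨p, p1, p2⟩ : ∃ p, p + K < L ∧ ∀ q < K, |u (p + q + 1) - u (p + q)| = 1 := by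
    by_contra hc
    push Not at hc
    have : ∀ m ≤ 3 * (a + b) + 7, m * (3 * K + 1) ≤ H (m * K) := fun m => by
      induction m with
      | zero => simp
      | succ m ih =>
        intro hm
        have c : (m + 1) * K ≤ (3 * (a + b) + 7) * K := by gcongr
        rw [add_mul, one_mul] at c
        obtain ⟨q, q1, q2⟩ := hc (m * K) (by omega)
        have c1 := s2 (m * K) q (by omega)
        have c2 := (s1 (m * K + q) (by omega)).2 q2
        have c3 := s2 (m * K + q + 1) (K - q - 1) (by omega)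
        have c4 := ih (by omega)
        rw [show m * K + q + 1 + (K - q - 1) = (m + 1) * K by rw [add_mul, one_mul]; omega] at c3
        rw [add_mul, one_mul]
        omega
    have c1 := this _ le_rfl
    have c2 : H ((3 * (a + b) + 7) * K) ≤ ∑ _i ∈ Icc (-a - L : ℤ) b, 3 :=
      sum_le_sum fun _ _ => ty_le _ _
    rw [sum_const, Int.card_Icc, show (b + 1 - (-a - L) : ℤ).toNat = a + b + 1 + L by omega,
      smul_eq_mul] at c2
    nlinarith
  obtain ⟨ε, e1, e2⟩ : ∃ ε : ℤ, (ε = 1 ∨ ε = -1) ∧ ∀ q < K, u (p + q + 1) = u (p + q) + ε := by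
    rcases Nat.eq_zero_or_pos K with k0 | k0
    · exact ⟨1, Or.inl rfl, fun q hq => by omega⟩
    have c := (abs_eq zero_le_one).1 (p2 0 k0)
    refine ⟨_, c, fun q => ?_⟩
    induction q with
    | zero => intro _; simp
    | succ q ih =>
      intro hq
      have c1 := ih (by omega)
      have c2 := (abs_eq zero_le_one).1 (p2 _ hq)
      have c3 := u2 (p + q) (by omega) (p + (q + 1) + 1) (by omega)
      rw [← add_assoc] at c2 c3 ⊢
      omega
  have e3 : ∀ q : ℕ, q ≤ K → u p + ε * q = u (p + q) := fun q => by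
    induction q with
    | zero => simp
    | succ q ih =>
      intro hq
      rw [← add_assoc, e2 q hq, ← ih (by omega)]
      push_cast
      ring
  refine ⟨u p, ε, e1, fun q hq => ?_, fun q q' c hq => ?_⟩
  · rw [e3 q hq]
    exact u1 _ (by omega)
  · rw [e3 q (by omega), e3 q' hq]
    exact u3 _ _ (by omega) (by omega)

theorem rigid (t : ℝ) (ht : 1 < t) (a g : ℕ) (ha : 1 ≤ a) (hg : 1 ≤ g) (b K L : ℕ)
    (hb : b = a + g + 1) (hK : K = (2 * a + 1) * g + a + b + 2)
    (hL : L = (3 * (a + b) + 7) * K + 1) (x y : ℤ → ℝ)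
    (h : ∀ i ∈ Icc (-a - L : ℤ) b, ∀ j : ℤ, 0 ≤ j → j < L → (P t (x i + y j) ↔ F a b (i + j))) :
    2 * (g : ℝ) < (2 * a + 1) * (t - 1) := by
  obtain ⟨j, ε, e, h1, h2⟩ := run t ht a b ha (by omega) K L hL x y h
  have h3 : ∀ i ∈ Icc (-a - L : ℤ) b, ∀ q : ℕ, q ≤ K →
      (ty t (x i + y (j + ε * q)) % 2 = 1 ↔ F a b (i + (j + ε * q))) := fun i hi q hq => by
    rw [← ty_odd ht]
    exact h i hi _ (h1 q hq).1 (h1 q hq).2
  have h4 : ∀ i, ∀ q q' : ℕ, q ≤ q' → q' ≤ K →
      ty t (x i + y (j + ε * q)) ≤ ty t (x i + y (j + ε * q')) := fun i q q' c c' =>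
    ty_mono (by linarith [h2 q q' c c'])
  have hk : a + b + 2 ≤ K := by omega
  unfold F at h3
  rcases e with rfl | rfl
  · have A : ∀ q : ℕ, q + a + b + 1 ≤ K → y (j + 1 * q) + 2 ≤ y (j + 1 * (q + (2 * a + 1) : ℕ)) := by
      intro q hq
      have hi : -a - 1 - j - q ∈ Icc (-a - L : ℤ) b := by
        have := h1 q (by omega)
        rw [mem_Icc]
        omega
      have c1 := h3 _ hi q (by omega)
      have c2 := h3 _ hi (q + 1) (by omega)
      have c3 := h3 _ hi (q + (2 * a + 1)) (by omega)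
      have c4 := h3 _ hi (q + a + b + 1) (by omega)
      have d1 := h4 (-a - 1 - j - q) q (q + 1) (by omega) (by omega)
      have d2 := h4 (-a - 1 - j - q) (q + 1) (q + (2 * a + 1)) (by omega) (by omega)
      have d3 := h4 (-a - 1 - j - q) (q + (2 * a + 1)) (q + a + b + 1) (by omega) (by omega)
      have d4 := ty_le t (x (-a - 1 - j - q) + y (j + 1 * (q + a + b + 1 : ℕ)))
      have f1 := ty0 (t := t) (s := x (-a - 1 - j - q) + y (j + 1 * q)) (by omega)
      have f2 := ty2 (t := t) (s := x (-a - 1 - j - q) + y (j + 1 * (q + (2 * a + 1) : ℕ)))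
        (by omega)
      linarith [f2.1]
    have B : ∀ q : ℕ, q + 1 + g ≤ K →
        y (j + 1 * (q + 1 + g : ℕ)) < y (j + 1 * (q + 1 : ℕ)) + (t - 1) := by
      intro q hq
      have hi : a - 1 - j - q ∈ Icc (-a - L : ℤ) b := by
        have := h1 q (by omega)
        rw [mem_Icc]
        omega
      have c1 := h3 _ hi q (by omega)
      have c2 := h3 _ hi (q + 1) (by omega)
      have c3 := h3 _ hi (q + 1 + g) (by omega)
      have d1 := h4 (a - 1 - j - q) q (q + 1) (by omega) (by omega)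
      have d2 := h4 (a - 1 - j - q) (q + 1) (q + 1 + g) (by omega) (by omega)
      have d4 := ty_le t (x (a - 1 - j - q) + y (j + 1 * (q + 1 + g : ℕ)))
      have f1 := ty2 (t := t) (s := x (a - 1 - j - q) + y (j + 1 * (q + 1 : ℕ))) (by omega)
      have f2 := ty2 (t := t) (s := x (a - 1 - j - q) + y (j + 1 * (q + 1 + g : ℕ))) (by omega)
      linarith [f1.1, f2.2]
    have A' : ∀ m ≤ g, y (j + 1 * (1 : ℕ)) + 2 * m ≤ y (j + 1 * (1 + (2 * a + 1) * m : ℕ)) := by
      intro m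
      induction m with
      | zero => simp
      | succ m ih =>
        intro hm
        have c : (2 * a + 1) * m ≤ (2 * a + 1) * g := by gcongr; omega
        have := A (1 + (2 * a + 1) * m) (by omega)
        have := ih (by omega)
        rw [mul_add (2 * a + 1), mul_one, ← add_assoc]
        push_cast at *
        linarith
    have B' : ∀ m ≤ 2 * a, y (j + 1 * (g * (m + 1) + 1 : ℕ)) <
        y (j + 1 * (1 : ℕ)) + (m + 1) * (t - 1) := by
      intro m
      induction m with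
      | zero =>
        intro _
        have := B 0 (by nlinarith)
        simpa [add_comm] using this
      | succ m ih =>
        intro hm
        have := B (g * (m + 1)) (by nlinarith)
        have := ih (by omega)
        rw [show g * (m + 1 + 1) + 1 = g * (m + 1) + 1 + g by ring]
        push_cast at *
        linarith
    have c1 := A' g le_rfl
    have c2 := B' _ le_rfl
    rw [show g * (2 * a + 1) + 1 = 1 + (2 * a + 1) * g by ring] at c2
    push_cast at *
    linarith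
  · exfalso
    have hi : b - j ∈ Icc (-a - L : ℤ) b := by
      have := h1 0 (by omega)
      rw [mem_Icc]
      omega
    have c1 := h3 _ hi 0 (by omega)
    have c2 := h3 _ hi 1 (by omega)
    have c3 := h3 _ hi (g + 2) (by omega)
    have c4 := h3 _ hi (a + b + 1) (by omega)
    have d1 := h4 (b - j) 0 1 (by omega) (by omega)
    have d2 := h4 (b - j) 1 (g + 2) (by omega) (by omega)
    have d3 := h4 (b - j) (g + 2) (a + b + 1) (by omega) (by omega)
    have d4 := ty_le t (x (b - j) + y (j + -1 * (a + b + 1 : ℕ)))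
    omega

theorem sep (t t' : ℝ) (ht : 1 < t) (h : t < t') : ∃ (n : ℕ) (ρ : Fin n → ℝ),
    ¬ ∃ r : Fin n → ℝ, ∀ v w, v ≠ w → (P t' (ρ v + ρ w) ↔ P t (r v + r w)) := by
  obtain ⟨a, ha⟩ := exists_nat_ge ((t + 1) / (2 * (t' - t)) + 1 / (t - 1) + 1)
  have p1 : 0 < (t + 1) / (2 * (t' - t)) := div_pos (by linarith) (by linarith)
  have p2 : 0 < 1 / (t - 1) := div_pos one_pos (by linarith)
  have a1 : (1 : ℝ) ≤ a := by linarith
  have a2 : t + 1 ≤ a * (2 * (t' - t)) := (div_le_iff₀ (by linarith)).1 (by linarith)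
  have a3 : 1 < a * (t - 1) := (div_lt_iff₀ (by linarith)).1 (by linarith)
  obtain ⟨b, hb⟩ : ∃ b : ℕ, b = ⌈t' * a⌉₊ := ⟨_, rfl⟩
  have b1 : t' * a ≤ b := hb ▸ Nat.le_ceil _
  have b2 : a + 1 < b := by
    have : (a + 1 : ℝ) < b := by nlinarith
    exact_mod_cast this
  obtain ⟨g, hg⟩ : ∃ g, b = a + g + 1 := ⟨b - a - 1, by omega⟩
  obtain ⟨K, hK⟩ : ∃ K, K = (2 * a + 1) * g + a + b + 2 := ⟨_, rfl⟩
  obtain ⟨L, hL⟩ : ∃ L, L = (3 * (a + b) + 7) * K + 1 := ⟨_, rfl⟩
  let V := ↥(Icc (-a - L : ℤ) b) ⊕ ↥(Ico (0 : ℤ) L)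
  let e := Fintype.equivFin V
  let ρ : V → ℝ := Sum.elim (fun i => (i.1 : ℝ) / a) fun j => (j.1 : ℝ) / a
  refine ⟨_, ρ ∘ e.symm, ?_⟩
  rintro ⟨r, hr⟩
  have := rigid t ht a g (by exact_mod_cast a1) (by omega) b K L hg hK hL
    (fun i => if h : i ∈ Icc (-a - L : ℤ) b then r (e (.inl ⟨i, h⟩)) else 0)
    (fun j => if h : j ∈ Ico (0 : ℤ) L then r (e (.inr ⟨j, h⟩)) else 0) fun i hi j j0 j1 => by
      have hj := mem_Ico.2 ⟨j0, j1⟩
      rw [dif_pos hi, dif_pos hj, ← hr _ _ (by simp)]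
      simp only [Function.comp, Equiv.symm_apply_apply, ρ, Sum.elim_inl, Sum.elim_inr, P, F]
      have a0 : (0 : ℝ) < a := by linarith
      rw [← add_div, le_div_iff₀ a0, div_lt_iff₀ a0, le_div_iff₀ a0, ← Int.cast_add,
        ← Int.ceil_le, ← Int.ceil_le, hb, Int.natCast_ceil_eq_ceil (by nlinarith)]
      simp only [neg_mul, one_mul, Int.ceil_neg, Int.floor_natCast]
      norm_cast
  have : (b : ℝ) = a + g + 1 := by exact_mod_cast hg
  nlinarith

end Pool.Agent.H.MP_86beeb_co.A
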